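import Pool.Agent.Helper51.LG.Pl

/-!
# LG: the even and odd extensions of a function on `[0,1]`
-/

open MeasureTheory Set Filter Topology
open scoped Interval

namespace Pool.Agent.Helper51.LG

/-- `p` on `[0,1]`, `ε p(-u)` on `[-1,0)`, zero elsewhere. -/
noncomputable def ext (p : ℝ → ℝ) (e : ℝ) (u : ℝ) : ℝ :=
  (Icc (0:ℝ) 1).indicator p u + e * (Ico (-1:ℝ) 0).indicator (fun v => p (-v)) u

theorem ext_meas {p : ℝ → ℝ} (hp : Continuous p) (e : ℝ) : Measurable (ext p e) := by
  unfold ext
  exact (hp.measurable.indicator measurableSet_Icc).add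
    (((hp.measurable.comp measurable_neg).indicator measurableSet_Ico).const_mul e)

theorem ext_bdd {p : ℝ → ℝ} (hp : Continuous p) (e : ℝ) : ∃ C, 0 ≤ C ∧ ∀ u, |ext p e u| ≤ C := by
  obtain ⟨M, hM⟩ := isCompact_Icc.exists_bound_of_continuousOn (s := Icc (0:ℝ) 1) hp.continuousOn
  have hM0 : 0 ≤ M := (norm_nonneg _).trans (hM 0 (by simp))
  refine ⟨M + |e| * M, by positivity, fun u => ?_⟩
  unfold ext
  refine (abs_add_le _ _).trans (add_le_add ?_ ?_)
  · by_cases h : u ∈ Icc (0:ℝ) 1
    · rw [indicator_of_mem h]; exact hM u h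
    · rw [indicator_of_notMem h]; simpa using hM0
  · rw [abs_mul]
    refine mul_le_mul_of_nonneg_left ?_ (abs_nonneg e)
    by_cases h : u ∈ Ico (-1:ℝ) 0
    · rw [indicator_of_mem h]
      exact hM (-u) ⟨by linarith [h.2], by linarith [h.1]⟩
    · rw [indicator_of_notMem h]; simpa using hM0

theorem ext_supp (p : ℝ → ℝ) (e : ℝ) {u : ℝ} (h : u ∉ Icc (-1:ℝ) 1) : ext p e u = 0 := by
  unfold ext
  rw [indicator_of_notMem, indicator_of_notMem]
  · simp
  · intro h1; exact h ⟨h1.1, by linarith [h1.2]⟩
  · intro h1; exact h ⟨by linarith [h1.1], h1.2⟩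

theorem ext_int_mul {p : ℝ → ℝ} (hp : Continuous p) (e : ℝ) {φ : ℝ → ℝ} (hφ : Continuous φ) :
    Integrable (fun u => ext p e u * φ u) := by
  obtain ⟨C, hC0, hC⟩ := ext_bdd hp e
  have h1 : IntegrableOn (fun u => ext p e u * φ u) (Icc (-1:ℝ) 1) := by
    refine Integrable.bdd_mul (c := C) ?_ (ext_meas hp e).aestronglyMeasurable
      (Eventually.of_forall fun u => hC u)
    exact hφ.continuousOn.integrableOn_Icc
  refine (integrableOn_iff_integrable_of_support_subset ?_).1 h1
  intro u hu
  by_contra h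
  exact hu (by simp [ext_supp p e h])

theorem ext_integrable {p : ℝ → ℝ} (hp : Continuous p) (e : ℝ) : Integrable (ext p e) := by
  simpa using ext_int_mul hp e (φ := fun _ => 1) continuous_const

/-- the integral of the extension against a continuous function -/
theorem int_ext_mul {p : ℝ → ℝ} (hp : Continuous p) (e : ℝ) {φ : ℝ → ℝ} (hφ : Continuous φ) :
    ∫ u, ext p e u * φ u = ∫ u in (0:ℝ)..1, p u * (φ u + e * φ (-u)) := by
  have hi1 : Integrable (fun u => (Icc (0:ℝ) 1).indicator p u * φ u) := by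
    have : (fun u => (Icc (0:ℝ) 1).indicator p u * φ u) =
        (Icc (0:ℝ) 1).indicator (fun u => p u * φ u) := by
      funext u; simp only [indicator]; split_ifs <;> ring
    rw [this, integrable_indicator_iff measurableSet_Icc]
    exact (hp.mul hφ).continuousOn.integrableOn_Icc
  have hi2 : Integrable (fun u => (Ico (-1:ℝ) 0).indicator (fun v => p (-v)) u * φ u) := by
    have : (fun u => (Ico (-1:ℝ) 0).indicator (fun v => p (-v)) u * φ u) =
        (Ico (-1:ℝ) 0).indicator (fun u => p (-u) * φ u) := by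
      funext u; simp only [indicator]; split_ifs <;> ring
    rw [this, integrable_indicator_iff measurableSet_Ico]
    exact (((hp.comp continuous_neg).mul hφ).continuousOn.integrableOn_Icc (a := -1) (b := 0)).mono_set
      Ico_subset_Icc_self
  have e1 : ∫ u, (Icc (0:ℝ) 1).indicator p u * φ u = ∫ u in (0:ℝ)..1, p u * φ u := by
    have : (fun u => (Icc (0:ℝ) 1).indicator p u * φ u) =
        (Icc (0:ℝ) 1).indicator (fun u => p u * φ u) := by
      funext u; simp only [indicator]; split_ifs <;> ring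
    rw [this, integral_indicator measurableSet_Icc, intervalIntegral.integral_of_le zero_le_one,
      integral_Icc_eq_integral_Ioc]
  have e2 : ∫ u, (Ico (-1:ℝ) 0).indicator (fun v => p (-v)) u * φ u =
      ∫ u in (0:ℝ)..1, p u * φ (-u) := by
    have : (fun u => (Ico (-1:ℝ) 0).indicator (fun v => p (-v)) u * φ u) =
        (Ico (-1:ℝ) 0).indicator (fun u => p (-u) * φ u) := by
      funext u; simp only [indicator]; split_ifs <;> ring
    rw [this, integral_indicator measurableSet_Ico, integral_Ico_eq_integral_Ioo,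
      ← integral_Ioc_eq_integral_Ioo, ← intervalIntegral.integral_of_le (by norm_num : (-1:ℝ) ≤ 0)]
    have h := intervalIntegral.integral_comp_neg (a := (0:ℝ)) (b := 1)
      (fun u => p (-u) * φ u)
    simp only [neg_neg, neg_zero] at h
    exact h.symm
  have : (fun u => ext p e u * φ u) = fun u => (Icc (0:ℝ) 1).indicator p u * φ u +
      e * ((Ico (-1:ℝ) 0).indicator (fun v => p (-v)) u * φ u) := by
    funext u; unfold ext; ring
  rw [this, integral_add hi1 (hi2.const_mul e), integral_const_mul, e1, e2,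
    ← intervalIntegral.integral_const_mul, ← intervalIntegral.integral_add]
  · congr 1; funext u; ring
  · exact (hp.mul hφ).intervalIntegrable _ _
  · exact (continuous_const.mul (hp.mul (hφ.comp continuous_neg))).intervalIntegrable _ _

/-- the integral of the square -/
theorem int_ext_sq {p : ℝ → ℝ} (hp : Continuous p) {e : ℝ} (he : e ^ 2 = 1) :
    ∫ u, ext p e u ^ 2 = 2 * ∫ u in (0:ℝ)..1, p u ^ 2 := by
  have e1 : (fun u => ext p e u ^ 2) = ext (fun u => p u ^ 2) 1 := by
    funext u
    unfold ext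
    by_cases h : u ∈ Icc (0:ℝ) 1
    · have h' : u ∉ Ico (-1:ℝ) 0 := fun h' => by linarith [h.1, h'.2]
      rw [indicator_of_mem h, indicator_of_mem h, indicator_of_notMem h', indicator_of_notMem h']
      ring
    · rw [indicator_of_notMem h, indicator_of_notMem h]
      by_cases h' : u ∈ Ico (-1:ℝ) 0
      · rw [indicator_of_mem h', indicator_of_mem h']
        calc (0 + e * p (-u)) ^ 2 = e ^ 2 * p (-u) ^ 2 := by ring
          _ = _ := by rw [he]; ring
      · rw [indicator_of_notMem h', indicator_of_notMem h']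
        ring
  rw [e1]
  have := int_ext_mul (p := fun u => p u ^ 2) (hp.pow 2) 1 (φ := fun _ => 1) continuous_const
  simp only [mul_one] at this
  rw [this, ← intervalIntegral.integral_const_mul]
  congr 1; funext u; ring

/-- the correlation of the extension and its shift by one -/
theorem int_ext_shift {p : ℝ → ℝ} (e : ℝ) :
    ∫ u, ext p e u * ext p e (u - 1) = e * ∫ u in (0:ℝ)..1, p u * p (1 - u) := by
  have e1 : ∀ u, u ≠ 1 → ext p e u * ext p e (u - 1) =
      (Ico (0:ℝ) 1).indicator (fun u => e * (p u * p (1 - u))) u := by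
    intro u hu1
    by_cases h : u ∈ Ico (0:ℝ) 1
    · rw [indicator_of_mem h]
      unfold ext
      have h1 : u ∈ Icc (0:ℝ) 1 := ⟨h.1, h.2.le⟩
      have h2 : u ∉ Ico (-1:ℝ) 0 := fun h' => by linarith [h.1, h'.2]
      have h3 : u - 1 ∉ Icc (0:ℝ) 1 := fun h' => by linarith [h.2, h'.1]
      have h4 : u - 1 ∈ Ico (-1:ℝ) 0 := ⟨by linarith [h.1], by linarith [h.2]⟩
      rw [indicator_of_mem h1, indicator_of_notMem h2, indicator_of_notMem h3, indicator_of_mem h4,
        show -(u - 1) = 1 - u by ring]
      ring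
    · rw [indicator_of_notMem h]
      by_cases h1 : u < 0
      · rw [ext_supp p e (u := u - 1) (fun h' => by linarith [h'.1])]
        ring
      · rw [ext_supp p e (u := u) (fun h' => h ⟨not_lt.1 h1, lt_of_le_of_ne h'.2 hu1⟩)]
        ring
  have e2 : ∫ u, ext p e u * ext p e (u - 1) =
      ∫ u, (Ico (0:ℝ) 1).indicator (fun u => e * (p u * p (1 - u))) u := by
    apply integral_congr_ae
    have : ∀ᵐ u : ℝ, u ≠ 1 := by
      simp [ae_iff]
    filter_upwards [this] with u hu
    exact e1 u hu
  rw [e2, integral_indicator measurableSet_Ico, integral_Ico_eq_integral_Ioo,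
    ← integral_Ioc_eq_integral_Ioo, ← intervalIntegral.integral_of_le zero_le_one,
    intervalIntegral.integral_const_mul]

/-- `H(u) + r H(u - 1)` -/
noncomputable def sh (p : ℝ → ℝ) (e r u : ℝ) : ℝ := ext p e u + r * ext p e (u - 1)

theorem sh_int_mul {p : ℝ → ℝ} (hp : Continuous p) (e r : ℝ) {φ : ℝ → ℝ} (hφ : Continuous φ) :
    ∫ u, sh p e r u * φ u = (∫ u in (0:ℝ)..1, p u * (φ u + e * φ (-u))) +
      r * ∫ u in (0:ℝ)..1, p u * (φ (u + 1) + e * φ (-u + 1)) := by
  have h1 := ext_int_mul hp e hφ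
  have hφ' : Continuous fun u => φ (u + 1) := hφ.comp (continuous_id.add continuous_const)
  have h2 : Integrable (fun u => ext p e (u - 1) * φ u) := by
    have := (ext_int_mul hp e hφ').comp_sub_right 1
    simpa using this
  have e2 : ∫ u, ext p e (u - 1) * φ u = ∫ u in (0:ℝ)..1, p u * (φ (u + 1) + e * φ (-u + 1)) := by
    rw [← int_ext_mul hp e hφ', ← integral_sub_right_eq_self (fun u => ext p e u * φ (u + 1)) (1:ℝ)]
    simp
  have : (fun u => sh p e r u * φ u) = fun u => ext p e u * φ u + r * (ext p e (u - 1) * φ u) := by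
    funext u; unfold sh; ring
  rw [this, integral_add h1 (h2.const_mul r), integral_const_mul, int_ext_mul hp e hφ, e2]

theorem ext_sq_integrable {p : ℝ → ℝ} (hp : Continuous p) (e : ℝ) :
    Integrable (fun u => ext p e u ^ 2) := by
  obtain ⟨C, hC0, hC⟩ := ext_bdd hp e
  have := (ext_integrable hp e).bdd_mul (c := C) (ext_meas hp e).aestronglyMeasurable
    (Eventually.of_forall fun u => hC u)
  refine this.congr (Eventually.of_forall fun u => ?_)
  simp only
  ring

theorem sh_sq {p : ℝ → ℝ} (hp : Continuous p) {e : ℝ} (he : e ^ 2 = 1) (r : ℝ) :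
    MemLp (sh p e r) 2 ∧ Integrable (sh p e r) ∧
    ∫ u, sh p e r u ^ 2 = 2 * (1 + r ^ 2) * (∫ u in (0:ℝ)..1, p u ^ 2) +
      2 * r * e * ∫ u in (0:ℝ)..1, p u * p (1 - u) := by
  obtain ⟨C, hC0, hC⟩ := ext_bdd hp e
  have hi := ext_integrable hp e
  have hi' : Integrable (fun u => ext p e (u - 1)) := hi.comp_sub_right 1
  have hs : Integrable (sh p e r) := hi.add (hi'.const_mul r)
  have hsq := ext_sq_integrable hp e
  have hsq' : Integrable (fun u => ext p e (u - 1) ^ 2) := hsq.comp_sub_right 1
  have hm : Integrable (fun u => ext p e u * ext p e (u - 1)) :=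
    hi'.bdd_mul (c := C) (ext_meas hp e).aestronglyMeasurable (Eventually.of_forall fun u => hC u)
  have hexp : (fun u => sh p e r u ^ 2) = fun u => ext p e u ^ 2 + r ^ 2 * ext p e (u - 1) ^ 2 +
      2 * r * (ext p e u * ext p e (u - 1)) := by
    funext u; unfold sh; ring
  have hsqi : Integrable (fun u => sh p e r u ^ 2) := by
    rw [hexp]
    exact (hsq.add (hsq'.const_mul _)).add (hm.const_mul _)
  refine ⟨(memLp_two_iff_integrable_sq hs.1).2 hsqi, hs, ?_⟩
  have hA : Integrable (fun u => ext p e u ^ 2 + r ^ 2 * ext p e (u - 1) ^ 2) :=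
    hsq.add (hsq'.const_mul _)
  rw [hexp, integral_add hA (hm.const_mul _),
    integral_add hsq (hsq'.const_mul _), integral_const_mul, integral_const_mul,
    integral_sub_right_eq_self (fun u => ext p e u ^ 2) (1:ℝ), int_ext_sq hp he, int_ext_shift]
  ring

end Pool.Agent.Helper51.LG
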