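import Pool.Agent.Helper47.LTFourier

/-!
# LG: Plancherel for real functions, in terms of cosine and sine transforms
-/

open MeasureTheory Set Filter Topology FourierTransform
open scoped ENNReal RealInnerProductSpace

namespace Pool.Agent.Helper51.LG

/-- Plancherel for real integrable and square integrable functions. -/
theorem planch_real {g : ℝ → ℝ} (h1 : Integrable g) (h2 : MemLp g 2) :
    Integrable (fun b : ℝ => (∫ u, g u * Real.cos (b * u)) ^ 2 + (∫ u, g u * Real.sin (b * u)) ^ 2) ∧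
    ∫ b : ℝ, ((∫ u, g u * Real.cos (b * u)) ^ 2 + (∫ u, g u * Real.sin (b * u)) ^ 2) =
      2 * Real.pi * ∫ u, g u ^ 2 := by
  have hpi : (2 * Real.pi) ≠ 0 := by positivity
  set Φ : ℝ → ℝ := fun b => (∫ u, g u * Real.cos (b * u)) ^ 2 + (∫ u, g u * Real.sin (b * u)) ^ 2 with hΦ
  set g' : ℝ → ℂ := fun u => (g u : ℂ) with hg'
  have h1' : Integrable g' := h1.ofReal
  have h2' : MemLp g' 2 := h2.ofReal
  have key := Pool.Agent.Helper47.LT.lintegral_fourierInv_sq h1' h2'
  have hcos : ∀ b : ℝ, Integrable (fun u => g u * Real.cos (b * u)) := fun b =>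
    h1.mul_bdd (c := 1) (by fun_prop) (Eventually.of_forall fun u => by
      rw [Real.norm_eq_abs]; exact Real.abs_cos_le_one _)
  have hsin : ∀ b : ℝ, Integrable (fun u => g u * Real.sin (b * u)) := fun b =>
    h1.mul_bdd (c := 1) (by fun_prop) (Eventually.of_forall fun u => by
      rw [Real.norm_eq_abs]; exact Real.abs_sin_le_one _)
  have hT : ∀ x : ℝ, 𝓕⁻ g' x = ((∫ u, g u * Real.cos (2 * Real.pi * x * u) : ℝ) : ℂ) +
      ((∫ u, g u * Real.sin (2 * Real.pi * x * u) : ℝ) : ℂ) * Complex.I := by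
    intro x
    rw [Real.fourierInv_eq']
    have e : ∀ v : ℝ, Complex.exp (((2 * Real.pi * ⟪v, x⟫ : ℝ) : ℂ) * Complex.I) • g' v =
        ((g v * Real.cos (2 * Real.pi * x * v) : ℝ) : ℂ) +
          ((g v * Real.sin (2 * Real.pi * x * v) : ℝ) : ℂ) * Complex.I := by
      intro v
      have : (2 * Real.pi * ⟪v, x⟫ : ℝ) = 2 * Real.pi * x * v := by
        simp only [RCLike.inner_apply, conj_trivial]; ring
      rw [this, Complex.exp_mul_I, smul_eq_mul, hg']
      push_cast
      ring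
    simp_rw [e]
    rw [integral_add (hcos _).ofReal ((hsin _).ofReal.mul_const _), integral_mul_const,
      integral_complex_ofReal, integral_complex_ofReal]
  have hn : ∀ x : ℝ, ‖𝓕⁻ g' x‖ₑ ^ 2 = ENNReal.ofReal (Φ (2 * Real.pi * x)) := by
    intro x
    have : ‖𝓕⁻ g' x‖ ^ 2 = Φ (2 * Real.pi * x) := by
      rw [hT x, Complex.sq_norm, Complex.normSq_add_mul_I]
    rw [← this, ← ofReal_norm, ENNReal.ofReal_pow (norm_nonneg _)]
  have hn2 : ∀ u : ℝ, ‖g' u‖ₑ ^ 2 = ENNReal.ofReal (g u ^ 2) := by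
    intro u
    rw [hg', ← ofReal_norm, ← ENNReal.ofReal_pow (norm_nonneg _), Complex.norm_real,
      Real.norm_eq_abs, sq_abs]
  simp_rw [hn, hn2] at key
  have hΦ0 : ∀ b, 0 ≤ Φ b := fun b => by positivity
  have hg2 : Integrable (fun u => g u ^ 2) := h2.integrable_sq
  have hfin : ∫⁻ u, ENNReal.ofReal (g u ^ 2) ≠ ⊤ := by
    have := (hasFiniteIntegral_iff_ofReal (Eventually.of_forall fun u => sq_nonneg (g u))).1 hg2.2
    exact this.ne
  have hΦc : Continuous (fun x : ℝ => Φ (2 * Real.pi * x)) := by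
    have hc := Pool.Agent.Helper47.LT.fourierInv_continuous (V := ℝ) h1'
    have : (fun x : ℝ => Φ (2 * Real.pi * x)) = fun x => ‖𝓕⁻ g' x‖ ^ 2 := by
      funext x
      rw [hT x, Complex.sq_norm, Complex.normSq_add_mul_I]
    rw [this]
    exact (hc.norm).pow 2
  have hI : Integrable (fun x : ℝ => Φ (2 * Real.pi * x)) := by
    refine ⟨hΦc.aestronglyMeasurable, ?_⟩
    rw [hasFiniteIntegral_iff_ofReal (Eventually.of_forall fun x => hΦ0 _), key]
    exact hfin.lt_top
  have hI' : Integrable Φ := (integrable_comp_mul_left_iff Φ hpi).1 hI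
  refine ⟨hI', ?_⟩
  have e1 : ∫ x : ℝ, Φ (2 * Real.pi * x) = ∫ u, g u ^ 2 := by
    rw [integral_eq_lintegral_of_nonneg_ae (Eventually.of_forall fun x => hΦ0 _)
      hΦc.aestronglyMeasurable, integral_eq_lintegral_of_nonneg_ae
      (Eventually.of_forall fun u => sq_nonneg (g u)) hg2.1, key]
  rw [Measure.integral_comp_mul_left, smul_eq_mul, abs_of_pos (by positivity)] at e1
  rw [← e1]
  field_simp

end Pool.Agent.Helper51.LG
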