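import Pool.Agent.Helper51.LG.Pe
import Pool.Agent.Helper25.LG.Def

/-!
# LG-PLA, part (a): the weighted Plancherel identity for `Fh`
-/

open MeasureTheory Set Filter Topology
open Pool.Agent.Helper25.LG

namespace Pool.Agent.Helper51.LG

/-- integration by parts: the sine transform of the derivative -/
theorem Fh_parts {h h' : ℝ → ℝ} (hd : ∀ u, HasDerivAt h (h' u) u) (hc : Continuous h')
    (h1 : h 1 = 0) (b : ℝ) :
    2 * ∫ u in (0:ℝ)..1, h' u * Real.sin (b * u) = b * Fh h b := by
  have hh : Continuous h := continuous_iff_continuousAt.2 fun u => (hd u).continuousAt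
  have hs : ∀ u : ℝ, HasDerivAt (fun u => Real.sin (b * u)) (Real.cos (b * u) * b) u := by
    intro u
    have := ((hasDerivAt_id u).const_mul b).sin
    simpa using this
  have key := intervalIntegral.integral_deriv_mul_eq_sub (a := (0:ℝ)) (b := 1)
    (u := h) (u' := h') (v := fun u => Real.sin (b * u)) (v' := fun u => Real.cos (b * u) * b)
    (fun u _ => hd u) (fun u _ => hs u) (hc.intervalIntegrable _ _)
    ((by fun_prop : Continuous fun u => Real.cos (b * u) * b).intervalIntegrable _ _)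
  rw [intervalIntegral.integral_add ((by fun_prop : Continuous fun u =>
      h' u * Real.sin (b * u)).intervalIntegrable _ _) ((by fun_prop : Continuous fun u =>
      h u * (Real.cos (b * u) * b)).intervalIntegrable _ _), h1] at key
  simp only [mul_zero, Real.sin_zero, zero_mul, sub_zero] at key
  have e : ∫ u in (0:ℝ)..1, h u * (Real.cos (b * u) * b) =
      b * ∫ u in (0:ℝ)..1, h u * Real.cos (b * u) := by
    rw [← intervalIntegral.integral_const_mul]
    congr 1; funext u; ring
  rw [e] at key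
  unfold Fh
  linarith

/-- the transforms of `H(u) + r H(u - 1)` for the even extension -/
theorem tr_even {h : ℝ → ℝ} (hh : Continuous h) (r b : ℝ) :
    (∫ u, sh h 1 r u * Real.cos (b * u)) ^ 2 + (∫ u, sh h 1 r u * Real.sin (b * u)) ^ 2 =
      (1 + r ^ 2 + 2 * r * Real.cos b) * Fh h b ^ 2 := by
  rw [sh_int_mul hh 1 r (φ := fun u => Real.cos (b * u)) (by fun_prop),
    sh_int_mul hh 1 r (φ := fun u => Real.sin (b * u)) (by fun_prop)]
  have e1 : ∫ u in (0:ℝ)..1, h u * (Real.cos (b * u) + 1 * Real.cos (b * -u)) = -Fh h b := by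
    unfold Fh
    rw [neg_mul, neg_neg, ← intervalIntegral.integral_const_mul]
    congr 1; funext u
    rw [mul_neg, Real.cos_neg]; ring
  have e2 : ∫ u in (0:ℝ)..1, h u * (Real.cos (b * (u + 1)) + 1 * Real.cos (b * (-u + 1))) =
      -Fh h b * Real.cos b := by
    rw [show -Fh h b * Real.cos b = (2 * Real.cos b) * ∫ u in (0:ℝ)..1, h u * Real.cos (b * u) by
      unfold Fh; ring, ← intervalIntegral.integral_const_mul]
    congr 1; funext u
    rw [show b * (u + 1) = b * u + b by ring, show b * (-u + 1) = b - b * u by ring,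
      Real.cos_add, Real.cos_sub]; ring
  have e3 : ∫ u in (0:ℝ)..1, h u * (Real.sin (b * u) + 1 * Real.sin (b * -u)) = 0 := by
    rw [show (fun u => h u * (Real.sin (b * u) + 1 * Real.sin (b * -u))) = fun _ => 0 by
      funext u; rw [mul_neg, Real.sin_neg]; ring]
    simp
  have e4 : ∫ u in (0:ℝ)..1, h u * (Real.sin (b * (u + 1)) + 1 * Real.sin (b * (-u + 1))) =
      -Fh h b * Real.sin b := by
    rw [show -Fh h b * Real.sin b = (2 * Real.sin b) * ∫ u in (0:ℝ)..1, h u * Real.cos (b * u) by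
      unfold Fh; ring, ← intervalIntegral.integral_const_mul]
    congr 1; funext u
    rw [show b * (u + 1) = b * u + b by ring, show b * (-u + 1) = b - b * u by ring,
      Real.sin_add, Real.sin_sub]; ring
  rw [e1, e2, e3, e4]
  linear_combination (r ^ 2 * Fh h b ^ 2) * Real.sin_sq_add_cos_sq b

/-- the transforms of `K(u) + r K(u - 1)` for the odd extension of the derivative -/
theorem tr_odd {h h' : ℝ → ℝ} (hd : ∀ u, HasDerivAt h (h' u) u) (hc : Continuous h')
    (h1 : h 1 = 0) (r b : ℝ) :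
    (∫ u, sh h' (-1) r u * Real.cos (b * u)) ^ 2 + (∫ u, sh h' (-1) r u * Real.sin (b * u)) ^ 2 =
      (1 + r ^ 2 + 2 * r * Real.cos b) * (b ^ 2 * Fh h b ^ 2) := by
  have hp := Fh_parts hd hc h1 b
  rw [sh_int_mul hc (-1) r (φ := fun u => Real.cos (b * u)) (by fun_prop),
    sh_int_mul hc (-1) r (φ := fun u => Real.sin (b * u)) (by fun_prop)]
  have e1 : ∫ u in (0:ℝ)..1, h' u * (Real.cos (b * u) + -1 * Real.cos (b * -u)) = 0 := by
    rw [show (fun u => h' u * (Real.cos (b * u) + -1 * Real.cos (b * -u))) = fun _ => 0 by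
      funext u; rw [mul_neg, Real.cos_neg]; ring]
    simp
  have e2 : ∫ u in (0:ℝ)..1, h' u * (Real.cos (b * (u + 1)) + -1 * Real.cos (b * (-u + 1))) =
      -(b * Fh h b) * Real.sin b := by
    rw [show -(b * Fh h b) * Real.sin b =
      (-2 * Real.sin b) * ∫ u in (0:ℝ)..1, h' u * Real.sin (b * u) by rw [← hp]; ring,
      ← intervalIntegral.integral_const_mul]
    congr 1; funext u
    rw [show b * (u + 1) = b * u + b by ring, show b * (-u + 1) = b - b * u by ring,
      Real.cos_add, Real.cos_sub]; ring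
  have e3 : ∫ u in (0:ℝ)..1, h' u * (Real.sin (b * u) + -1 * Real.sin (b * -u)) =
      b * Fh h b := by
    rw [← hp, ← intervalIntegral.integral_const_mul]
    congr 1; funext u
    rw [mul_neg, Real.sin_neg]; ring
  have e4 : ∫ u in (0:ℝ)..1, h' u * (Real.sin (b * (u + 1)) + -1 * Real.sin (b * (-u + 1))) =
      (b * Fh h b) * Real.cos b := by
    rw [show (b * Fh h b) * Real.cos b =
      (2 * Real.cos b) * ∫ u in (0:ℝ)..1, h' u * Real.sin (b * u) by rw [← hp]; ring,
      ← intervalIntegral.integral_const_mul]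
    congr 1; funext u
    rw [show b * (u + 1) = b * u + b by ring, show b * (-u + 1) = b - b * u by ring,
      Real.sin_add, Real.sin_sub]; ring
  rw [e1, e2, e3, e4]
  linear_combination (r ^ 2 * (b * Fh h b) ^ 2) * Real.sin_sq_add_cos_sq b

theorem Fh_sq {γ r : ℝ} {h h' : ℝ → ℝ} (hd : ∀ u, HasDerivAt h (h' u) u)
    (hc : Continuous h') (h1 : h 1 = 0) :
    Integrable (fun b : ℝ => (1 + γ ^ 2 * b ^ 2) * (1 + r ^ 2 + 2 * r * Real.cos b) * Fh h b ^ 2) ∧
    ∫ b : ℝ, (1 + γ ^ 2 * b ^ 2) * (1 + r ^ 2 + 2 * r * Real.cos b) * Fh h b ^ 2 = 4 * Real.pi * Qw γ r h h' := by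
  have hh : Continuous h := continuous_iff_continuousAt.2 fun u => (hd u).continuousAt
  obtain ⟨a1, a2, a3⟩ := sh_sq hh (e := 1) (by norm_num) r
  obtain ⟨b1, b2, b3⟩ := sh_sq hc (e := -1) (by norm_num) r
  obtain ⟨i1, i2⟩ := planch_real a2 a1
  obtain ⟨j1, j2⟩ := planch_real b2 b1
  simp_rw [tr_even hh] at i1 i2
  simp_rw [tr_odd hd hc h1] at j1 j2
  have e : (fun b : ℝ => (1 + γ ^ 2 * b ^ 2) * (1 + r ^ 2 + 2 * r * Real.cos b) * Fh h b ^ 2) =
      fun b => (1 + r ^ 2 + 2 * r * Real.cos b) * Fh h b ^ 2 +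
        γ ^ 2 * ((1 + r ^ 2 + 2 * r * Real.cos b) * (b ^ 2 * Fh h b ^ 2)) := by
    funext b; ring
  rw [e]
  refine ⟨i1.add (j1.const_mul _), ?_⟩
  rw [integral_add i1 (j1.const_mul _), integral_const_mul, i2, j2, a3, b3]
  unfold Qw
  ring

end Pool.Agent.Helper51.LG
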